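import Pool.Agent.X111.OL.Win

set_option autoImplicit false

/-! All high moments of zeta on the critical line off a small set of large values: full ranges. -/

namespace Pool.Agent.X111.OL

open Filter MeasureTheory Set

/-- summation over dyadic ranges -/
lemma dyad {u h : ℝ → ℝ} {A A' T1 : ℝ} (hT1 : 0 < T1) (h0 : ∀ T, T1 ≤ T → 0 ≤ h T)
    (hh : ∀ T, T1 ≤ T → 3 / 2 * h T ≤ h (2 * T)) (hu : ∀ T, T1 ≤ T → u (2 * T) ≤ u T + A * h T)
    (hbase : ∀ T, T1 ≤ T → T ≤ 2 * T1 → u T ≤ A' * h T) (hA0 : 0 ≤ A) (hA : 2 * A ≤ A') :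
    ∀ T, T1 ≤ T → u T ≤ A' * h T := by
  have key : ∀ n : ℕ, ∀ T, T1 ≤ T → T ≤ 2 ^ (n + 1) * T1 → u T ≤ A' * h T := by
    intro n
    induction n with
    | zero => intro T h1 h2; exact hbase T h1 (by simpa using h2)
    | succ n ih =>
      intro T h1 h2
      rcases le_or_gt T (2 * T1) with h3 | h3
      · exact hbase T h1 h3
      · have h4 : T1 ≤ T / 2 := by linarith
        have h5 := ih (T / 2) h4 (by rw [pow_succ] at h2; linarith)
        have h6 := hu (T / 2) h4
        have h7 := hh (T / 2) h4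
        have h8 := h0 (T / 2) h4
        rw [show 2 * (T / 2) = T by ring] at h6 h7
        have hA' : 0 ≤ A' := by linarith
        nlinarith
  intro T h1
  obtain ⟨n, hn⟩ := pow_unbounded_of_one_lt (T / T1) (one_lt_two (α := ℝ))
  refine key n T h1 ?_
  rw [div_lt_iff₀ hT1] at hn
  have : (2:ℝ) ^ n * T1 ≤ 2 ^ (n + 1) * T1 := by
    refine mul_le_mul_of_nonneg_right ?_ hT1.le
    exact pow_le_pow_right₀ (by norm_num) (Nat.le_succ n)
  linarith

/-- growth of `T (log T)^q` -/
lemma grow (q : ℝ) : ∀ᶠ T : ℝ in atTop, 3 / 2 * (T * Real.log T ^ q) ≤ 2 * T * Real.log (2 * T) ^ q := by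
  have h1 : Tendsto (fun T : ℝ => (1 + Real.log 2 / Real.log T) ^ q) atTop (nhds ((1 + 0) ^ q)) := by
    refine Tendsto.rpow_const ?_ (Or.inl (by norm_num))
    exact tendsto_const_nhds.add (tendsto_const_nhds.div_atTop Real.tendsto_log_atTop)
  rw [add_zero, Real.one_rpow] at h1
  filter_upwards [h1.eventually (lt_mem_nhds (show (3/4 : ℝ) < 1 by norm_num)), eventually_ge_atTop 2] with T hT hT2
  have hT0 : 0 < T := by linarith
  have hl2 : Real.log 2 ≤ Real.log T := Real.log_le_log (by norm_num) hT2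
  have hl0 : 0 < Real.log 2 := Real.log_pos (by norm_num)
  have hlT : 0 < Real.log T := by linarith
  have a3 : Real.log (2 * T) = (1 + Real.log 2 / Real.log T) * Real.log T := by
    rw [Real.log_mul (by norm_num) hT0.ne']; field_simp; ring
  rw [a3, Real.mul_rpow (by positivity) hlT.le]
  have hp : 0 < T * Real.log T ^ q := mul_pos hT0 (Real.rpow_pos_of_pos hlT _)
  nlinarith

/-- the statement -/
theorem full (B c : ℝ) (hc : 0 ≤ c) (hB : 2 + 2 * c ≤ B) :
    ∃ (X : Set ℝ) (a A W : ℝ), MeasurableSet X ∧ 0 < a ∧ 0 < A ∧ 0 < W ∧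
      (∀ t ∈ X, 1 < t ∧ Real.log t ^ (2 + c) < z t) ∧
      (∀ᶠ T : ℝ in atTop, volume.real (X ∩ Icc 0 T) ≤ A * T / Real.log T ^ (4 + 4 * c) ∧
        ∀ k : ℝ, 2 + 2 * c ≤ k → k ≤ B →
          a * T * Real.log T ^ (k ^ 2) ≤ ∫ t in Icc 0 T \ X, z t ^ (2 * k) ∧
          ∫ t in Icc 0 T \ X, z t ^ (2 * k) ≤ A * T * Real.log T ^ (k ^ 2)) ∧
      ∀ α : ℝ, 0 ≤ α → α < 1 / 2 → ∀ᶠ T : ℝ in atTop, ∀ H : ℝ, T / Real.log T ^ α ≤ H → H ≤ T →
        volume.real (X ∩ Icc T (T + H)) ≤ A * H / Real.log T ^ (4 + 4 * c) ∧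
        (∀ k : ℝ, 2 + 2 * c ≤ k → k ≤ B →
          a * H * Real.log T ^ (k ^ 2) ≤ ∫ t in Icc T (T + H) \ X, z t ^ (2 * k) ∧
          ∫ t in Icc T (T + H) \ X, z t ^ (2 * k) ≤ A * H * Real.log T ^ (k ^ 2)) ∧
        ∀ V : ℝ, (2 + c) * Real.log (Real.log T) + W + 1 ≤ V → V ≤ B * Real.log (Real.log T) →
          a * H * gauss T V ≤ volume.real {t ∈ Icc T (T + H) \ X | Real.exp (V - W) ≤ z t ∧ z t ≤ Real.exp (V + W)} ∧
          volume.real {t ∈ Icc T (T + H) \ X | Real.exp (V - W) ≤ z t ∧ z t ≤ Real.exp (V + W)} ≤ A * H * gauss T V := by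
  obtain ⟨X, a, A, W, mX, ha, hA, hW, hX, h⟩ := windows B c hc hB
  have hwin := h 0 le_rfl (by norm_num)
  obtain ⟨T1, hT1⟩ := eventually_atTop.mp (hwin.and ((grow (-(4 + 4 * c))).and (eventually_ge_atTop (4:ℝ))))
  obtain ⟨-, -, hT14⟩ := hT1 T1 le_rfl
  have hT10 : 0 < T1 := by linarith
  have hw : ∀ T, T1 ≤ T → volume.real (X ∩ Icc T (2 * T)) ≤ A * T / Real.log T ^ (4 + 4 * c) ∧
        (∀ k : ℝ, 2 + 2 * c ≤ k → k ≤ B →
          a * T * Real.log T ^ (k ^ 2) ≤ ∫ t in Icc T (2 * T) \ X, z t ^ (2 * k) ∧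
          ∫ t in Icc T (2 * T) \ X, z t ^ (2 * k) ≤ A * T * Real.log T ^ (k ^ 2)) := by
    intro T hT
    have h1 := (hT1 T hT).1 T (by rw [Real.rpow_zero, div_one]) le_rfl
    rw [show T + T = 2 * T by ring] at h1
    exact ⟨h1.1, h1.2.1⟩
  have hlog1 : ∀ T : ℝ, 4 ≤ T → 1 ≤ Real.log T := by
    intro T hT
    rw [Real.le_log_iff_exp_le (by linarith)]
    have := Real.exp_one_lt_d9
    linarith
  have hsplit : ∀ T : ℝ, T1 ≤ T → Icc (0:ℝ) (2 * T) ⊆ Icc 0 T ∪ Icc T (2 * T) := by
    intro T hT t ht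
    rcases le_or_gt t T with h1 | h1
    · exact Or.inl ⟨ht.1, h1⟩
    · exact Or.inr ⟨h1.le, ht.2⟩
  -- the measure
  obtain ⟨A1, hA1⟩ : ∃ A1 : ℝ, A1 = 2 * A + Real.log (2 * T1) ^ (4 + 4 * c) := ⟨_, rfl⟩
  have hfin : ∀ a b : ℝ, volume (X ∩ Icc a b) ≠ ⊤ := fun a b =>
    ne_top_of_le_ne_top (by rw [Real.volume_Icc]; exact ENNReal.ofReal_ne_top) (measure_mono inter_subset_right)
  have hvol : ∀ T, T1 ≤ T → volume.real (X ∩ Icc 0 T) ≤ A1 * (T * Real.log T ^ (-(4 + 4 * c))) := by
    refine dyad (A := A) hT10 (fun T hT => ?_) (fun T hT => ?_) (fun T hT => ?_) (fun T hT hT' => ?_) hA.le ?_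
    · have := hlog1 T (by linarith)
      have : 0 ≤ T := by linarith
      positivity
    · exact (hT1 T hT).2.1
    · have h1 : volume.real (X ∩ Icc 0 (2 * T)) ≤ volume.real ((X ∩ Icc 0 T) ∪ (X ∩ Icc T (2 * T))) := by
        refine measureReal_mono ?_ (measure_union_ne_top (hfin _ _) (hfin _ _))
        rw [← inter_union_distrib_left]
        exact inter_subset_inter_right _ (hsplit T hT)
      have h2 := measureReal_union_le (μ := volume) (X ∩ Icc 0 T) (X ∩ Icc T (2 * T))
      have h3 := (hw T hT).1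
      have e : A * (T * Real.log T ^ (-(4 + 4 * c))) = A * T / Real.log T ^ (4 + 4 * c) := by
        rw [Real.rpow_neg (by have := hlog1 T (by linarith); linarith)]
        ring
      rw [e]
      linarith
    · have h1 : volume.real (X ∩ Icc 0 T) ≤ T := by
        have h2 : volume.real (X ∩ Icc 0 T) ≤ volume.real (Icc (0:ℝ) T) :=
          measureReal_mono inter_subset_right (by rw [Real.volume_Icc]; exact ENNReal.ofReal_ne_top)
        rw [Real.volume_real_Icc_of_le (by linarith), sub_zero] at h2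
        exact h2
      have hl := hlog1 T (by linarith)
      have h3 : 1 ≤ Real.log (2 * T1) ^ (4 + 4 * c) * Real.log T ^ (-(4 + 4 * c)) := by
        rw [Real.rpow_neg (by linarith), ← div_eq_mul_inv, le_div_iff₀ (Real.rpow_pos_of_pos (by linarith) _), one_mul]
        exact Real.rpow_le_rpow (by linarith) (Real.log_le_log (by linarith) hT') (by linarith)
      have hp : 0 ≤ Real.log T ^ (-(4 + 4 * c)) := Real.rpow_nonneg (by linarith) _
      have hT0 : 0 ≤ T := by linarith
      calc volume.real (X ∩ Icc 0 T) ≤ T * 1 := by linarith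
        _ ≤ T * (Real.log (2 * T1) ^ (4 + 4 * c) * Real.log T ^ (-(4 + 4 * c))) := mul_le_mul_of_nonneg_left h3 hT0
        _ ≤ A1 * (T * Real.log T ^ (-(4 + 4 * c))) := by
            rw [hA1]
            have : 0 ≤ A * (T * Real.log T ^ (-(4 + 4 * c))) := by positivity
            nlinarith
    · rw [hA1]
      have : 0 ≤ Real.log (2 * T1) ^ (4 + 4 * c) := Real.rpow_nonneg (by have := hlog1 (2 * T1) (by linarith); linarith) _
      linarith
  -- the moments
  obtain ⟨M, hM⟩ : ∃ M : ℝ, M = ∫ t in Icc 0 (2 * T1), (1 + z t) ^ (2 * B) := ⟨_, rfl⟩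
  have hM0 : 0 ≤ M := by
    rw [hM]
    exact integral_nonneg fun t => Real.rpow_nonneg (by have := z_nonneg t; linarith) _
  obtain ⟨A2, hA2⟩ : ∃ A2 : ℝ, A2 = 2 * A + M := ⟨_, rfl⟩
  have hmom : ∀ k : ℝ, 2 + 2 * c ≤ k → k ≤ B → ∀ T, T1 ≤ T → ∫ t in Icc 0 T \ X, z t ^ (2 * k) ≤ A2 * (T * Real.log T ^ (k ^ 2)) := by
    intro k hk1 hk2
    have hk0 : 0 ≤ 2 * k := by linarith
    have nn : ∀ (S : Set ℝ), 0 ≤ᵐ[volume.restrict S] fun t => z t ^ (2 * k) :=
      fun S => Eventually.of_forall fun t => Real.rpow_nonneg (z_nonneg t) _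
    refine dyad (A := A) hT10 (fun T hT => ?_) (fun T hT => ?_) (fun T hT => ?_) (fun T hT hT' => ?_) hA.le ?_
    · have := hlog1 T (by linarith)
      have : 0 ≤ T := by linarith
      positivity
    · have hl := hlog1 T (by linarith)
      have h1 : Real.log T ^ (k ^ 2) ≤ Real.log (2 * T) ^ (k ^ 2) :=
        Real.rpow_le_rpow (by linarith) (Real.log_le_log (by linarith) (by linarith)) (by positivity)
      have h2 : 0 ≤ Real.log T ^ (k ^ 2) := by positivity
      have hT0 : 0 < T := by linarith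
      calc 3 / 2 * (T * Real.log T ^ (k ^ 2)) ≤ 2 * T * Real.log T ^ (k ^ 2) := by
            have := mul_nonneg hT0.le h2
            linarith
        _ ≤ 2 * T * Real.log (2 * T) ^ (k ^ 2) := mul_le_mul_of_nonneg_left h1 (by linarith)
    · have i1 : IntegrableOn (fun t => z t ^ (2 * k)) (Icc 0 T \ X) := (zp_int hk0 _ _).mono_set sdiff_subset
      have i2 : IntegrableOn (fun t => z t ^ (2 * k)) (Icc T (2 * T) \ X) := (zp_int hk0 _ _).mono_set sdiff_subset
      have h1 : ∫ t in Icc 0 (2 * T) \ X, z t ^ (2 * k) ≤ ∫ t in (Icc 0 T \ X) ∪ (Icc T (2 * T) \ X), z t ^ (2 * k) := by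
        refine setIntegral_mono_set (i1.union i2) (nn _) ?_
        rw [← union_sdiff_distrib]
        exact HasSubset.Subset.eventuallyLE (sdiff_subset_sdiff_left (hsplit T hT))
      have h2 : ∫ t in (Icc 0 T \ X) ∪ (Icc T (2 * T) \ X), z t ^ (2 * k) ≤
          (∫ t in Icc 0 T \ X, z t ^ (2 * k)) + ∫ t in Icc T (2 * T) \ X, z t ^ (2 * k) := by
        rw [← union_sdiff_self, setIntegral_union disjoint_sdiff_right ((measurableSet_Icc.diff mX).diff (measurableSet_Icc.diff mX))
          i1 (i2.mono_set sdiff_subset)]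
        exact add_le_add le_rfl (setIntegral_mono_set i2 (nn _) (HasSubset.Subset.eventuallyLE sdiff_subset))
      have h3 := ((hw T hT).2 k hk1 hk2).2
      calc _ ≤ _ := h1.trans h2
        _ ≤ _ := by linarith
    · have hl := hlog1 T (by linarith)
      have h1 : ∫ t in Icc 0 T \ X, z t ^ (2 * k) ≤ M := by
        rw [hM]
        refine (setIntegral_mono_set (zp_int hk0 0 (2 * T1)) (nn _) ?_).trans ?_
        · exact HasSubset.Subset.eventuallyLE (sdiff_subset.trans (Icc_subset_Icc_right hT'))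
        · refine setIntegral_mono (zp_int hk0 _ _) ?_ fun t => ?_
          · exact (((continuous_const.add z_cont).rpow_const fun _ => Or.inr (by linarith)).continuousOn).integrableOn_compact isCompact_Icc
          · have hz := z_nonneg t
            calc z t ^ (2 * k) ≤ (1 + z t) ^ (2 * k) := Real.rpow_le_rpow hz (by linarith) hk0
              _ ≤ (1 + z t) ^ (2 * B) := Real.rpow_le_rpow_of_exponent_le (by linarith) (by linarith)
      have h2 : 1 ≤ T * Real.log T ^ (k ^ 2) := by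
        have h3 : 1 ≤ Real.log T ^ (k ^ 2) := Real.one_le_rpow hl (by positivity)
        nlinarith
      rw [hA2]
      nlinarith
    · rw [hA2]; linarith
  refine ⟨X, a / 2 ^ (1 + B ^ 2), A + A1 + A2, W, mX, by positivity, ?_, hW, hX, ?_, fun α h0 h1 => ?_⟩
  · have : 0 ≤ A1 := by
      rw [hA1]
      have : 0 ≤ Real.log (2 * T1) ^ (4 + 4 * c) := Real.rpow_nonneg (by have := hlog1 (2 * T1) (by linarith); linarith) _
      linarith
    have : 0 ≤ A2 := by rw [hA2]; linarith
    linarith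
  · have hA10 : 0 ≤ A1 := by
      rw [hA1]
      have : 0 ≤ Real.log (2 * T1) ^ (4 + 4 * c) := Real.rpow_nonneg (by have := hlog1 (2 * T1) (by linarith); linarith) _
      linarith
    have hA20 : 0 ≤ A2 := by rw [hA2]; linarith
    filter_upwards [eventually_ge_atTop (2 * T1)] with T hT
    have hT0 : 0 < T := by linarith
    have hl := hlog1 T (by linarith)
    refine ⟨?_, fun k hk1 hk2 => ⟨?_, ?_⟩⟩
    · refine (hvol T (by linarith)).trans ?_
      have e : A1 * (T * Real.log T ^ (-(4 + 4 * c))) = A1 * T / Real.log T ^ (4 + 4 * c) := by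
        rw [Real.rpow_neg (by linarith)]; ring
      rw [e]
      refine div_le_div_of_nonneg_right ?_ (Real.rpow_nonneg (by linarith) _)
      nlinarith
    · have hk0 : 0 ≤ 2 * k := by linarith
      have h1 := ((hw (T / 2) (by linarith)).2 k hk1 hk2).1
      rw [show 2 * (T / 2) = T by ring] at h1
      have h2 : ∫ t in Icc (T / 2) T \ X, z t ^ (2 * k) ≤ ∫ t in Icc 0 T \ X, z t ^ (2 * k) := by
        refine setIntegral_mono_set ((zp_int hk0 _ _).mono_set sdiff_subset)
          (Eventually.of_forall fun t => Real.rpow_nonneg (z_nonneg t) _) ?_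
        exact HasSubset.Subset.eventuallyLE (sdiff_subset_sdiff_left (Icc_subset_Icc_left (by linarith)))
      refine le_trans ?_ (h1.trans h2)
      have h3 : Real.log T / 2 ≤ Real.log (T / 2) := by
        rw [Real.log_div hT0.ne' (by norm_num)]
        have h4 : Real.log 4 ≤ Real.log T := Real.log_le_log (by norm_num) (by linarith)
        have h5 : Real.log 4 = 2 * Real.log 2 := by
          rw [show (4:ℝ) = 2 ^ 2 by norm_num, Real.log_pow]; norm_num
        linarith
      have h4 : (Real.log T / 2) ^ (k ^ 2) ≤ Real.log (T / 2) ^ (k ^ 2) :=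
        Real.rpow_le_rpow (by linarith) h3 (by positivity)
      rw [Real.div_rpow (by linarith) (by norm_num)] at h4
      have h5 : (2:ℝ) ^ (k ^ 2) ≤ 2 ^ (B ^ 2) := Real.rpow_le_rpow_of_exponent_le (by norm_num) (by nlinarith)
      have h6 : Real.log T ^ (k ^ 2) / 2 ^ (B ^ 2) ≤ Real.log (T / 2) ^ (k ^ 2) :=
        (div_le_div_of_nonneg_left (by positivity) (by positivity) h5).trans h4
      calc a / 2 ^ (1 + B ^ 2) * T * Real.log T ^ (k ^ 2) = a * (T / 2) * (Real.log T ^ (k ^ 2) / 2 ^ (B ^ 2)) := by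
            rw [Real.rpow_add (by norm_num), Real.rpow_one]
            field_simp
        _ ≤ a * (T / 2) * Real.log (T / 2) ^ (k ^ 2) := mul_le_mul_of_nonneg_left h6 (by positivity)
    · refine (hmom k hk1 hk2 T (by linarith)).trans ?_
      have : 0 ≤ T * Real.log T ^ (k ^ 2) := by positivity
      nlinarith
  · have hA10 : 0 ≤ A1 := by
      rw [hA1]
      have : 0 ≤ Real.log (2 * T1) ^ (4 + 4 * c) := Real.rpow_nonneg (by have := hlog1 (2 * T1) (by linarith); linarith) _
      linarith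
    have hA20 : 0 ≤ A2 := by rw [hA2]; linarith
    have ha' : a / 2 ^ (1 + B ^ 2) ≤ a := by
      refine div_le_self ha.le (Real.one_le_rpow (by norm_num) (by positivity))
    filter_upwards [h α h0 h1, eventually_ge_atTop 4] with T hT hT4 H hH1 hH2
    obtain ⟨q1, q2, q3⟩ := hT H hH1 hH2
    have hl := hlog1 T hT4
    have hH0 : 0 ≤ H := le_trans (by positivity) hH1
    refine ⟨q1.trans ?_, fun k hk1 hk2 => ?_, fun V hV1 hV2 => ?_⟩
    · refine div_le_div_of_nonneg_right ?_ (Real.rpow_nonneg (by linarith) _)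
      nlinarith
    · obtain ⟨p1, p2⟩ := q2 k hk1 hk2
      have hp : 0 ≤ H * Real.log T ^ (k ^ 2) := by positivity
      constructor
      · refine le_trans ?_ p1
        nlinarith
      · refine p2.trans ?_
        nlinarith
    · obtain ⟨p1, p2⟩ := q3 V hV1 hV2
      have hp : 0 ≤ H * gauss T V := mul_nonneg hH0 (by unfold gauss; positivity)
      constructor
      · refine le_trans ?_ p1
        nlinarith
      · refine p2.trans ?_
        nlinarith

end Pool.Agent.X111.OL
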