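import Pool.Agent.TH806.LM.Fin

set_option autoImplicit false

/-! The local law of the library (a copy of the theorem of the file LocalLawAndMoments of the starting repository). -/

namespace Pool.Agent.X111.OL

open Filter MeasureTheory

/-- The set of the `t ∈ E ∩ [T, T + H]` with `V - W ≤ log |ζ(1/2 + it)| ≤ V + W`. -/
def Level (E : Set ℝ) (T H V W : ℝ) : Set ℝ :=
  {t ∈ E ∩ Set.Icc T (T + H) | Real.exp (V - W) ≤ ‖riemannZeta (1 / 2 + t * Complex.I)‖ ∧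
    ‖riemannZeta (1 / 2 + t * Complex.I)‖ ≤ Real.exp (V + W)}

/-- The Gaussian weight `exp (-V² / log log T) / √(log log T)`. -/
noncomputable def gauss (T V : ℝ) : ℝ :=
  Real.exp (-(V ^ 2 / Real.log (Real.log T))) / Real.sqrt (Real.log (Real.log T))

/-- The real part of the sum of `p^(-1/2-it)` over the primes `p ≤ y`. -/
noncomputable def primeSum (y t : ℝ) : ℝ :=
  (∑ p ∈ (Finset.Icc 1 ⌊y⌋₊).filter Nat.Prime, (p : ℂ) ^ (-(1 / 2 + t * Complex.I))).re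

theorem loc : ∀ B ε δ₀ : ℝ, 0 ≤ B → 0 < ε → 0 < δ₀ →
    ∃ (E : Set ℝ) (c C W δ : ℝ), MeasurableSet E ∧ 0 < c ∧ 0 < C ∧ 0 < W ∧ 0 < δ ∧ δ ≤ δ₀ ∧
    (∀ j : ℕ, ∀ t ∈ E, (2 : ℝ) ^ j ≤ t → t < (2 : ℝ) ^ (j + 1) → riemannZeta (1 / 2 + t * Complex.I) ≠ 0 ∧
      |Real.log ‖riemannZeta (1 / 2 + t * Complex.I)‖ - primeSum (2 ^ (δ * j)) t| ≤ W) ∧
    ∀ α : ℝ, 0 ≤ α → α < 1 → ∀ᶠ T : ℝ in atTop, ∀ H : ℝ, T / Real.log T ^ α ≤ H → H ≤ T →
      (1 - ε) * H ≤ volume.real (E ∩ Set.Icc T (T + H)) ∧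
      (∀ V : ℝ, |V| ≤ B * Real.log (Real.log T) →
        c * H * gauss T V ≤ volume.real (Level E T H V W) ∧
        volume.real (Level E T H V W) ≤ C * H * gauss T V) ∧
      ∀ k : ℝ, |k| ≤ B →
        IntegrableOn (fun t : ℝ => ‖riemannZeta (1 / 2 + t * Complex.I)‖ ^ (2 * k)) (E ∩ Set.Icc T (T + H)) ∧
        c * H * Real.log T ^ (k ^ 2) ≤
          ∫ t in E ∩ Set.Icc T (T + H), ‖riemannZeta (1 / 2 + t * Complex.I)‖ ^ (2 * k) ∧
        ∫ t in E ∩ Set.Icc T (T + H), ‖riemannZeta (1 / 2 + t * Complex.I)‖ ^ (2 * k) ≤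
          C * H * Real.log T ^ (k ^ 2) := by
  intro B ε δ₀ hB hε hδ₀
  obtain ⟨E, c, C, W, δ, mE, hc, hC, hW, hδ, hδδ, hq, h⟩ := Pool.Agent.TH806.LM.a_FIN B ε δ₀ hB hε hδ₀
  refine ⟨E, c, C, W, δ, mE, hc, hC, hW, hδ, hδδ, ?_, fun α h0 h1 => ?_⟩
  · intro j t ht h1 h2
    obtain ⟨q1, q2⟩ := hq j t ht h1 h2
    have e : ((2 : ℝ) ^ j) ^ δ = 2 ^ (δ * j) := by
      rw [← Real.rpow_natCast, ← Real.rpow_mul (by norm_num)]
      congr 1; ring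
    rw [e] at q2
    exact ⟨norm_pos_iff.mp q1, q2⟩
  filter_upwards [h α h0 h1, eventually_gt_atTop (1:ℝ)] with T hT hT1 H hH1 hH2
  obtain ⟨a1, a2, a3⟩ := hT H hH1 hH2
  have hH0 : 0 ≤ H := by
    refine le_trans ?_ hH1
    have : 0 < Real.log T := Real.log_pos hT1
    positivity
  have hset : ∀ V : ℝ, Level E T H V W =
      Set.Icc T (T + H) ∩ (E ∩ Pool.Agent.TH806.LM.Lev V W) := by
    intro V
    ext t
    constructor
    · rintro ⟨⟨h1, h2⟩, h3⟩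
      exact ⟨h2, h1, h3⟩
    · rintro ⟨h2, h1, h3⟩
      exact ⟨⟨h1, h2⟩, h3⟩
  refine ⟨?_, fun V hV => ?_, fun k hk => ?_⟩
  · have e1 : volume.real (Set.Icc T (T + H)) = H := by
      rw [Real.volume_real_Icc_of_le (by linarith)]; ring
    have e2 := measureReal_inter_add_sdiff (μ := volume) (s := Set.Icc T (T + H)) mE (by
      rw [Real.volume_Icc]; exact ENNReal.ofReal_ne_top)
    rw [Set.inter_comm E]
    have e3 : Set.Icc T (T + H) \ E = Set.Icc T (T + H) ∩ Eᶜ := rfl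
    rw [e3, e1] at e2
    linarith
  · obtain ⟨b1, b2⟩ := a2 V hV
    rw [hset V]
    refine ⟨le_trans (le_of_eq ?_) b1, b2.trans (le_of_eq ?_)⟩
    · unfold gauss Pool.Agent.TH806.LM.gg; ring
    · unfold gauss Pool.Agent.TH806.LM.gg; ring
  · obtain ⟨b0, b1, b2⟩ := a3 k hk
    rw [Set.inter_comm E]
    refine ⟨b0, le_trans (le_of_eq ?_) b1, b2.trans (le_of_eq ?_)⟩
    · ring
    · ring

end Pool.Agent.X111.OL
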