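import Pool.Agent.X111.OL.Loc
import Pool.Agent.TH806.N4.Abs

set_option autoImplicit false

/-! All high moments of zeta on the critical line off a small set of large values: windows. -/

namespace Pool.Agent.X111.OL

open Filter MeasureTheory Set

/-- the modulus of zeta on the critical line -/
noncomputable def z (t : ℝ) : ℝ := ‖riemannZeta (1 / 2 + t * Complex.I)‖

lemma z_nonneg (t : ℝ) : 0 ≤ z t := norm_nonneg _

lemma z_cont : Continuous z := by
  unfold z
  refine continuous_norm.comp ?_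
  rw [continuous_iff_continuousAt]
  intro t
  have h1 : (1 / 2 + t * Complex.I : ℂ) ≠ 1 := by
    intro h
    have := congrArg Complex.re h
    norm_num at this
  have h2 : ContinuousAt (fun s : ℂ => riemannZeta s) (1 / 2 + t * Complex.I) :=
    (differentiableAt_riemannZeta h1).continuousAt
  exact h2.comp (f := fun t : ℝ => (1 / 2 + t * Complex.I : ℂ)) (by fun_prop)

lemma zp_cont {p : ℝ} (hp : 0 ≤ p) : Continuous fun t => z t ^ p :=
  z_cont.rpow_const fun _ => Or.inr hp

lemma zp_int {p : ℝ} (hp : 0 ≤ p) (a b : ℝ) : IntegrableOn (fun t => z t ^ p) (Icc a b) :=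
  (zp_cont hp).continuousOn.integrableOn_compact isCompact_Icc

/-- the fourth moment over windows -/
lemma four {α : ℝ} (h0 : 0 ≤ α) (h1 : α < 1 / 2) : ∀ᶠ T : ℝ in atTop, ∀ H : ℝ, T / Real.log T ^ α ≤ H → H ≤ T →
    ∫ t in Icc T (T + H), z t ^ (4:ℝ) ≤ 2 * H * Real.log T ^ (4:ℝ) := by
  obtain ⟨δ, hδ, h⟩ := (Pool.Agent.TH806.N4.a_SHT).1 1 one_pos
  filter_upwards [h α h0 h1, eventually_gt_atTop 1] with T hT hT1 H hH1 hH2
  have h2 := (hT H hH1 hH2).1 4 (by linarith) le_rfl
  have hlog : 0 < Real.log T := Real.log_pos hT1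
  have hH0 : 0 ≤ H := by
    refine le_trans ?_ hH1
    have : 0 < Real.log T := Real.log_pos hT1
    positivity
  have e1 : ((4:ℝ) ^ 2 / 4) = 4 := by norm_num
  rw [e1] at h2
  have e2 : ∫ t in T..(T + H), Pool.Agent.TH806.Xz t ^ (4:ℝ) = ∫ t in Icc T (T + H), z t ^ (4:ℝ) := by
    rw [intervalIntegral.integral_of_le (by linarith), integral_Icc_eq_integral_Ioc]
    rfl
  rw [e2] at h2
  refine h2.trans ?_
  have h3 : 1 / (2 * Real.pi ^ 2) + 1 ≤ 2 := by
    have h4 : 1 ≤ 2 * Real.pi ^ 2 := by nlinarith [Real.pi_gt_three]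
    have h5 : 1 / (2 * Real.pi ^ 2) ≤ 1 := by
      rw [div_le_one (by positivity)]; exact h4
    linarith
  have h6 : 0 ≤ H * Real.log T ^ (4:ℝ) := by positivity
  nlinarith

/-- the logarithm over a dyadic window -/
lemma log_win {p : ℝ} (hp : 0 ≤ p) : ∀ᶠ T : ℝ in atTop, ∀ t : ℝ, T ≤ t → t ≤ 2 * T →
    Real.log T ≤ Real.log t ∧ Real.log t ≤ 2 * Real.log T ∧ Real.log t ^ p < Real.exp 1 * Real.log T ^ p := by
  have h1 : Tendsto (fun T : ℝ => (1 + Real.log 2 / Real.log T) ^ p) atTop (nhds ((1 + 0) ^ p)) := by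
    refine Tendsto.rpow_const ?_ (Or.inl (by norm_num))
    exact tendsto_const_nhds.add (tendsto_const_nhds.div_atTop Real.tendsto_log_atTop)
  rw [add_zero, Real.one_rpow] at h1
  have he : (1:ℝ) < Real.exp 1 := Real.one_lt_exp_iff.mpr one_pos
  filter_upwards [h1.eventually (gt_mem_nhds he), eventually_ge_atTop 2] with T hT hT2 t ht1 ht2
  have hT0 : 0 < T := by linarith
  have hl2 : Real.log 2 ≤ Real.log T := Real.log_le_log (by norm_num) hT2
  have hl0 : 0 < Real.log 2 := Real.log_pos (by norm_num)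
  have hlT : 0 < Real.log T := by linarith
  have a1 : Real.log T ≤ Real.log t := Real.log_le_log hT0 ht1
  have a2 : Real.log t ≤ Real.log 2 + Real.log T := by
    rw [← Real.log_mul (by norm_num) hT0.ne']
    exact Real.log_le_log (by linarith) ht2
  refine ⟨a1, by linarith, ?_⟩
  have a3 : Real.log 2 + Real.log T = (1 + Real.log 2 / Real.log T) * Real.log T := by field_simp; ring
  calc Real.log t ^ p ≤ ((1 + Real.log 2 / Real.log T) * Real.log T) ^ p :=
        Real.rpow_le_rpow (by linarith) (by linarith) hp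
    _ = (1 + Real.log 2 / Real.log T) ^ p * Real.log T ^ p := Real.mul_rpow (by positivity) hlT.le
    _ < Real.exp 1 * Real.log T ^ p := mul_lt_mul_of_pos_right hT (Real.rpow_pos_of_pos hlT _)

/-- the statement for windows -/
theorem windows (B c : ℝ) (hc : 0 ≤ c) (hB : 2 + 2 * c ≤ B) :
    ∃ (X : Set ℝ) (a A W : ℝ), MeasurableSet X ∧ 0 < a ∧ 0 < A ∧ 0 < W ∧
      (∀ t ∈ X, 1 < t ∧ Real.log t ^ (2 + c) < z t) ∧
      ∀ α : ℝ, 0 ≤ α → α < 1 / 2 → ∀ᶠ T : ℝ in atTop, ∀ H : ℝ, T / Real.log T ^ α ≤ H → H ≤ T →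
        volume.real (X ∩ Icc T (T + H)) ≤ A * H / Real.log T ^ (4 + 4 * c) ∧
        (∀ k : ℝ, 2 + 2 * c ≤ k → k ≤ B →
          a * H * Real.log T ^ (k ^ 2) ≤ ∫ t in Icc T (T + H) \ X, z t ^ (2 * k) ∧
          ∫ t in Icc T (T + H) \ X, z t ^ (2 * k) ≤ A * H * Real.log T ^ (k ^ 2)) ∧
        ∀ V : ℝ, (2 + c) * Real.log (Real.log T) + W + 1 ≤ V → V ≤ B * Real.log (Real.log T) →
          a * H * gauss T V ≤ volume.real {t ∈ Icc T (T + H) \ X | Real.exp (V - W) ≤ z t ∧ z t ≤ Real.exp (V + W)} ∧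
          volume.real {t ∈ Icc T (T + H) \ X | Real.exp (V - W) ≤ z t ∧ z t ≤ Real.exp (V + W)} ≤ A * H * gauss T V := by
  obtain ⟨G, a0, C0, W, δ, mG, ha0, hC0, hW, -, -, -, hG⟩ := loc B (1/2) 1 (by linarith) (by norm_num) one_pos
  obtain ⟨X, hX⟩ : ∃ X : Set ℝ, X = {t : ℝ | 1 < t} ∩ Gᶜ ∩ {t | Real.log t ^ (2 + c) < z t} := ⟨_, rfl⟩
  have mX : MeasurableSet X := by
    rw [hX]
    refine (measurableSet_Ioi.inter mG.compl).inter ?_
    exact measurableSet_lt (Real.measurable_log.pow_const _) z_cont.measurable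
  obtain ⟨K, hK⟩ : ∃ K : ℝ, K = 2 ^ ((2 + c) * (2 * B - 4)) := ⟨_, rfl⟩
  have hK1 : 1 ≤ K := by
    rw [hK]
    exact Real.one_le_rpow (by norm_num) (mul_nonneg (by linarith) (by linarith))
  refine ⟨X, a0, C0 + 2 * K, W, mX, ha0, by positivity, hW, fun t ht => ?_, fun α h0 h1 => ?_⟩
  · rw [hX] at ht
    exact ⟨ht.1.1, ht.2⟩
  filter_upwards [hG α h0 (by linarith), four h0 h1, log_win (p := 2 + c) (by linarith), eventually_ge_atTop 3] with T hT hT4 hlw hT3 H hH1 hH2
  obtain ⟨-, hlev, hmom⟩ := hT H hH1 hH2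
  have h4 := hT4 H hH1 hH2
  have hT0 : 0 < T := by linarith
  have hlT : 1 < Real.log T := by
    rw [Real.lt_log_iff_exp_lt hT0]
    have := Real.exp_one_lt_d9
    linarith
  have hlT0 : 0 < Real.log T := by linarith
  have hH0 : 0 ≤ H := le_trans (by positivity) hH1
  set I : Set ℝ := Icc T (T + H) with hI
  have mI : MeasurableSet I := measurableSet_Icc
  have hIt : ∀ t ∈ I, T ≤ t ∧ t ≤ 2 * T := fun t ht => ⟨ht.1, by linarith [ht.2]⟩
  have nn : ∀ (p : ℝ) (S : Set ℝ), 0 ≤ᵐ[volume.restrict S] fun t => z t ^ p :=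
    fun p S => Eventually.of_forall fun t => Real.rpow_nonneg (z_nonneg t) _
  refine ⟨?_, fun k hk1 hk2 => ?_, fun V hV1 hV2 => ?_⟩
  · -- the measure of the exceptional set
    have e1 : Real.log T ^ (4 * (2 + c)) * volume.real (X ∩ I) ≤ ∫ t in X ∩ I, z t ^ (4:ℝ) := by
      refine setIntegral_ge_of_const_le_real (mX.inter mI) ?_ (fun t ht => ?_) ?_
      · exact ne_top_of_le_ne_top (by rw [hI, Real.volume_Icc]; exact ENNReal.ofReal_ne_top) (measure_mono inter_subset_right)
      · have h5 : Real.log t ^ (2 + c) < z t := by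
          have := ht.1
          rw [hX] at this
          exact this.2
        have h6 := (hlw t (hIt t ht.2).1 (hIt t ht.2).2).1
        have h7 : Real.log T ^ (2 + c) ≤ z t := (Real.rpow_le_rpow hlT0.le h6 (by linarith)).trans h5.le
        rw [mul_comm (4:ℝ), Real.rpow_mul hlT0.le]
        exact Real.rpow_le_rpow (Real.rpow_nonneg hlT0.le _) h7 (by norm_num)
      · exact (zp_int (by norm_num) _ _).mono_set inter_subset_right
    have e2 : ∫ t in X ∩ I, z t ^ (4:ℝ) ≤ ∫ t in I, z t ^ (4:ℝ) :=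
      setIntegral_mono_set (zp_int (by norm_num) _ _) (nn _ _) inter_subset_right.eventuallyLE
    have e3 : Real.log T ^ (4 * (2 + c)) = Real.log T ^ (4:ℝ) * Real.log T ^ (4 + 4 * c) := by
      rw [← Real.rpow_add hlT0]; congr 1; ring
    rw [e3] at e1
    have hL4 : 0 < Real.log T ^ (4:ℝ) := Real.rpow_pos_of_pos hlT0 _
    have hLc : 0 < Real.log T ^ (4 + 4 * c) := Real.rpow_pos_of_pos hlT0 _
    rw [le_div_iff₀ hLc]
    have e4 : Real.log T ^ (4:ℝ) * (volume.real (X ∩ I) * Real.log T ^ (4 + 4 * c)) ≤ Real.log T ^ (4:ℝ) * (2 * H) := by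
      calc _ = Real.log T ^ (4:ℝ) * Real.log T ^ (4 + 4 * c) * volume.real (X ∩ I) := by ring
        _ ≤ 2 * H * Real.log T ^ (4:ℝ) := e1.trans (e2.trans h4)
        _ = _ := by ring
    have e5 := le_of_mul_le_mul_left e4 hL4
    nlinarith
  · obtain ⟨-, m1, m2⟩ := hmom k (abs_le.mpr ⟨by linarith, hk2⟩)
    have hk0 : 0 ≤ 2 * k := by linarith
    constructor
    · refine le_trans m1 (setIntegral_mono_set ((zp_int hk0 _ _).mono_set sdiff_subset) (nn _ _) ?_)
      refine HasSubset.Subset.eventuallyLE fun t ht => ⟨ht.2, fun h => ?_⟩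
      rw [hX] at h
      exact h.1.2 ht.1
    · have i1 : IntegrableOn (fun t => z t ^ (2 * k)) (I \ X) := (zp_int hk0 _ _).mono_set sdiff_subset
      rw [← integral_inter_add_sdiff mG i1]
      have s1 : ∫ t in (I \ X) ∩ G, z t ^ (2 * k) ≤ C0 * H * Real.log T ^ (k ^ 2) := by
        refine le_trans (setIntegral_mono_set ((zp_int hk0 _ _).mono_set (inter_subset_right (s := G))) (nn _ _) ?_) m2
        exact HasSubset.Subset.eventuallyLE fun t ht => ⟨ht.2, ht.1.1⟩
      have s2 : ∫ t in (I \ X) \ G, z t ^ (2 * k) ≤ 2 * K * H * Real.log T ^ (k ^ 2) := by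
        obtain ⟨M, hM⟩ : ∃ M : ℝ, M = K * Real.log T ^ ((2 + c) * (2 * k - 4)) := ⟨_, rfl⟩
        have b1 : ∫ t in (I \ X) \ G, z t ^ (2 * k) ≤ ∫ t in (I \ X) \ G, M * z t ^ (4:ℝ) := by
          refine setIntegral_mono_on (i1.mono_set sdiff_subset)
            (((zp_int (by norm_num) _ _).mono_set (sdiff_subset.trans sdiff_subset)).const_mul _) ((mI.diff mX).diff mG) fun t ht => ?_
          have h5 : z t ≤ Real.log t ^ (2 + c) := by
            by_contra hcon
            push Not at hcon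
            refine ht.1.2 ?_
            rw [hX]
            exact ⟨⟨by have := (hIt t ht.1.1).1; show 1 < t; linarith, ht.2⟩, hcon⟩
          have h6 := (hlw t (hIt t ht.1.1).1 (hIt t ht.1.1).2).2.1
          have h6' := (hlw t (hIt t ht.1.1).1 (hIt t ht.1.1).2).1
          have h7 : z t ^ (2 * k - 4) ≤ M := by
            calc z t ^ (2 * k - 4) ≤ (Real.log t ^ (2 + c)) ^ (2 * k - 4) :=
                  Real.rpow_le_rpow (z_nonneg t) h5 (by linarith)
              _ ≤ ((2 * Real.log T) ^ (2 + c)) ^ (2 * k - 4) :=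
                  Real.rpow_le_rpow (Real.rpow_nonneg (by linarith) _)
                    (Real.rpow_le_rpow (by linarith) h6 (by linarith)) (by linarith)
              _ = 2 ^ ((2 + c) * (2 * k - 4)) * Real.log T ^ ((2 + c) * (2 * k - 4)) := by
                  rw [← Real.rpow_mul (by positivity), Real.mul_rpow (by norm_num) hlT0.le]
              _ ≤ M := by
                  rw [hM, hK]
                  refine mul_le_mul_of_nonneg_right ?_ (Real.rpow_nonneg hlT0.le _)
                  refine Real.rpow_le_rpow_of_exponent_le (by norm_num) ?_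
                  exact mul_le_mul_of_nonneg_left (by linarith) (by linarith)
          calc z t ^ (2 * k) = z t ^ (2 * k - 4 + 4) := by ring_nf
            _ = z t ^ (2 * k - 4) * z t ^ (4:ℝ) := by
                rcases (z_nonneg t).eq_or_lt with h | h
                · rw [← h, Real.zero_rpow (by linarith), Real.zero_rpow (show (4:ℝ) ≠ 0 by norm_num), mul_zero]
                · exact Real.rpow_add h _ _
            _ ≤ M * z t ^ (4:ℝ) := mul_le_mul_of_nonneg_right h7 (Real.rpow_nonneg (z_nonneg t) _)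
        have hM0 : 0 ≤ M := by rw [hM]; positivity
        have b2 : ∫ t in (I \ X) \ G, M * z t ^ (4:ℝ) ≤ M * (2 * H * Real.log T ^ (4:ℝ)) := by
          rw [integral_const_mul]
          refine mul_le_mul_of_nonneg_left ?_ hM0
          refine le_trans (setIntegral_mono_set (zp_int (by norm_num) _ _) (nn _ _) ?_) h4
          exact HasSubset.Subset.eventuallyLE (sdiff_subset.trans sdiff_subset)
        refine b1.trans (b2.trans ?_)
        have b3 : Real.log T ^ ((2 + c) * (2 * k - 4)) * Real.log T ^ (4:ℝ) ≤ Real.log T ^ (k ^ 2) := by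
          rw [← Real.rpow_add hlT0]
          refine Real.rpow_le_rpow_of_exponent_le hlT.le ?_
          nlinarith [mul_nonneg (show 0 ≤ k - 2 by linarith) (show 0 ≤ k - 2 - 2 * c by linarith)]
        calc M * (2 * H * Real.log T ^ (4:ℝ)) = 2 * K * H * (Real.log T ^ ((2 + c) * (2 * k - 4)) * Real.log T ^ (4:ℝ)) := by
              rw [hM]; ring
          _ ≤ 2 * K * H * Real.log T ^ (k ^ 2) := mul_le_mul_of_nonneg_left b3 (by positivity)
      calc _ ≤ C0 * H * Real.log T ^ (k ^ 2) + 2 * K * H * Real.log T ^ (k ^ 2) := add_le_add s1 s2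
        _ = _ := by ring
  · -- the level sets
    have hset : {t ∈ I \ X | Real.exp (V - W) ≤ z t ∧ z t ≤ Real.exp (V + W)} = Level G T H V W := by
      ext t
      constructor
      · rintro ⟨⟨h1, h2⟩, h3, h4⟩
        refine ⟨⟨?_, h1⟩, h3, h4⟩
        by_contra hcon
        refine h2 ?_
        rw [hX]
        refine ⟨⟨by have := (hIt t h1).1; show 1 < t; linarith, hcon⟩, ?_⟩
        show Real.log t ^ (2 + c) < z t
        have h6 := (hlw t (hIt t h1).1 (hIt t h1).2).2.2
        refine lt_of_lt_of_le h6 (le_trans ?_ h3)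
        have h7 : Real.log T ^ (2 + c) = Real.exp ((2 + c) * Real.log (Real.log T)) := by
          rw [Real.rpow_def_of_pos hlT0, mul_comm]
        rw [h7, ← Real.exp_add]
        exact Real.exp_le_exp.mpr (by linarith)
      · rintro ⟨⟨h1, h2⟩, h3, h4⟩
        refine ⟨⟨h2, fun h => ?_⟩, h3, h4⟩
        rw [hX] at h
        exact h.1.2 h1
    rw [hset]
    have hll : 0 ≤ Real.log (Real.log T) := Real.log_nonneg hlT.le
    obtain ⟨l1, l2⟩ := hlev V (abs_le.mpr ⟨by
      have : 0 ≤ (2 + c) * Real.log (Real.log T) := mul_nonneg (by linarith) hll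
      have : 0 ≤ B * Real.log (Real.log T) := mul_nonneg (by linarith) hll
      linarith, hV2⟩)
    refine ⟨l1, l2.trans ?_⟩
    have hg : 0 ≤ H * gauss T V := mul_nonneg hH0 (by unfold gauss; positivity)
    have : 0 ≤ K := by linarith
    nlinarith

end Pool.Agent.X111.OL
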